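import Pool.Agent.U987.BE.B

/-!
# The Ball-Evans problem for homeomorphisms with small local distortion

Let `f : ℝⁿ → ℝⁿ` be equal to the identity off a ball and of local distortion at most `ρ`: near each
point, `a |p - q| ≤ |f p - f q| ≤ ρ a |p - q|` for some `a > 0` which depends on the point. If
`ρ² (√n - 1) < √n + 1` (`ρ < 1.93` for `n = 3`, `ρ < √3` for `n = 4`), there are `C^∞` diffeomorphisms
`g j` of `ℝⁿ`, equal to the identity off one ball, which converge to `f` uniformly and in `W^{1,p}(Ω)`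
for all `1 ≤ p < ∞` and all bounded open sets `Ω`.

Proof. The `g j` are mollifications with radial kernels. The four point inequality for reflected
pairs of points shows that their differentials are invertible; a local diffeomorphism which is the
identity off a ball is bijective. Their differentials are bounded uniformly and converge at every
point of differentiability of `f`.
-/

set_option autoImplicit false

open Set Filter Topology Metric MeasureTheory
open scoped ContDiff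

namespace Pool.Agent.Results.MP_f0515e_an.SmallLocalDistortion

/-- `ℝⁿ` -/
abbrev R (n : ℕ) : Type := EuclideanSpace ℝ (Fin n)

/-- near every point, `f` changes distances by factors between `a` and `ρ a`, for some `a > 0` which
depends on the point -/
def HasLocalDistortion {n : ℕ} (f : R n → R n) (ρ : ℝ) : Prop :=
  ∀ x, ∃ r > 0, ∃ a > 0, ∀ p ∈ ball x r, ∀ q ∈ ball x r,
    a * ‖p - q‖ ≤ ‖f p - f q‖ ∧ ‖f p - f q‖ ≤ ρ * (a * ‖p - q‖)

/-- `g` is a diffeomorphism of `ℝⁿ` -/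
def IsDiffeo {n : ℕ} (g : R n → R n) : Prop :=
  ContDiff ℝ ∞ g ∧ ∃ h : R n → R n, ContDiff ℝ ∞ h ∧ (∀ x, h (g x) = x) ∧ ∀ x, g (h x) = x

/-- `g` restricts to a diffeomorphism of `U` onto an open set -/
def IsDiffeoOn {n : ℕ} (g : R n → R n) (U : Set (R n)) : Prop :=
  ContDiffOn ℝ ∞ g U ∧ IsOpen (g '' U) ∧
    ∃ h : R n → R n, ContDiffOn ℝ ∞ h (g '' U) ∧ ∀ x ∈ U, h (g x) = x

/-- `G` is a weak derivative of `f` on `U` -/
def IsWeakDeriv {n : ℕ} (U : Set (R n)) (f : R n → R n) (G : R n → R n →L[ℝ] R n) : Prop :=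
  ∀ φ : R n → ℝ, ContDiff ℝ ∞ φ → HasCompactSupport φ → tsupport φ ⊆ U → ∀ v : R n,
    ∫ x in U, φ x • G x v = -∫ x in U, fderiv ℝ φ x v • f x

/-- `f` belongs to `W^{1,p}(U)`, with weak derivative `G` -/
def MemW1p {n : ℕ} (p : ℝ) (U : Set (R n)) (f : R n → R n) (G : R n → R n →L[ℝ] R n) : Prop :=
  MemLp f (ENNReal.ofReal p) (volume.restrict U) ∧
  MemLp G (ENNReal.ofReal p) (volume.restrict U) ∧ IsWeakDeriv U f G

/-- the sequence `g`, with derivatives `fderiv ℝ (g j)`, converges to `f` in `W^{1,p}(U)`, where `G`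
is the weak derivative of `f` -/
def ConvergesW1p {n : ℕ} (p : ℝ) (U : Set (R n)) (g : ℕ → R n → R n) (f : R n → R n)
    (G : R n → R n →L[ℝ] R n) : Prop :=
  Tendsto (fun j => eLpNorm (fun x => g j x - f x) (ENNReal.ofReal p) (volume.restrict U) +
    eLpNorm (fun x => fderiv ℝ (g j) x - G x) (ENNReal.ofReal p) (volume.restrict U)) atTop (𝓝 0)

/-- **Ball-Evans approximation for small local distortion.** -/
theorem result (n : ℕ) (hn : 1 ≤ n) (ρ : ℝ) (hρ : 1 ≤ ρ)
    (hc : ρ ^ 2 * (Real.sqrt n - 1) < Real.sqrt n + 1) (f : R n → R n)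
    (hf : HasLocalDistortion f ρ) (hs : ∃ r, ∀ x, r ≤ ‖x‖ → f x = x) :
    ∃ g : ℕ → R n → R n,
      (∀ j, IsDiffeo (g j)) ∧
      (∃ r, ∀ j x, r ≤ ‖x‖ → g j x = x) ∧
      (∃ C, ∀ (j : ℕ) x, ‖g j x - f x‖ ≤ C / (j + 1)) ∧
      (∃ C, ∀ j x, ‖fderiv ℝ (g j) x‖ ≤ C) ∧
      ∀ (p : ℝ) (U : Set (R n)), 1 ≤ p → IsOpen U → Bornology.IsBounded U →
        MemW1p p U f (fderiv ℝ f) ∧
        (∀ j, IsDiffeoOn (g j) U ∧ MemW1p p U (g j) (fderiv ℝ (g j))) ∧
        ConvergesW1p p U g f (fderiv ℝ f) := by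
  obtain ⟨r, hr⟩ := hs
  obtain ⟨Λ, R', g, hΛ, hL, hg, hid, hcl, hder, hlim⟩ :=
    Pool.Agent.U987.BE.approx (n := n) hn hρ (by linarith) hr hf
  refine ⟨g, fun j => ?_, ⟨R', hid⟩, ⟨Λ, hcl⟩, ⟨Λ, hder⟩, fun p U hp hU hb => ?_⟩
  · obtain ⟨h1, h, h2, h3, h4⟩ := Pool.Agent.Y522.smooth_inverse (hg j).2.1 (hg j).2.2
    exact ⟨h1, h, h2, h3, h4⟩
  · exact Pool.Agent.U987.BE.sobolev hΛ hL hg hcl hder hlim hp hU hb

end Pool.Agent.Results.MP_f0515e_an.SmallLocalDistortion
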